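import Pool.Agent.K3h34.BF.Stm
import Pool.Agent.K3h15.DM.Mat

/-!
# Brick SLF of helper34: the functionals on the slice
-/

set_option autoImplicit false

namespace Pool.Agent.K3h16.BFSLF

open MvPolynomial
open Pool.Agent.K3h34.BF
open Pool.Agent.K3h15.DM (Rx sh hx Dl Yp Sym IsDisc hz t_Mat)
open Pool.Agent.K3h15.BF (dh IsDiscB)
open Filter Topology

/-! ### the simplex -/

lemma isOpen_Usim (n : ℕ) : IsOpen (Usim n) := by
  have : Usim n = (⋂ i : Fin n, ⋂ j : Fin n, {x : Fin n → ℝ | i < j → x i < x j}) ∩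
      ⋂ i : Fin n, {x : Fin n → ℝ | 0 < x i ∧ x i < 1} := by
    ext x
    simp only [Usim, Set.mem_ofPred_eq, Set.mem_inter_iff, Set.mem_iInter]
  rw [this]
  apply IsOpen.inter
  · apply isOpen_iInter_of_finite
    intro i
    apply isOpen_iInter_of_finite
    intro j
    by_cases h : i < j
    · simp only [h, true_imp_iff]
      exact isOpen_lt (continuous_apply i) (continuous_apply j)
    · simp only [h, false_imp_iff, Set.ofPred_true]
      exact isOpen_univ
  · apply isOpen_iInter_of_finite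
    intro i
    exact (isOpen_lt continuous_const (continuous_apply i)).inter
      (isOpen_lt (continuous_apply i) continuous_const)

lemma isBounded_Usim (n : ℕ) : Bornology.IsBounded (Usim n) := by
  apply (isCompact_Icc (a := (0 : Fin n → ℝ)) (b := (1 : Fin n → ℝ))).isBounded.subset
  intro x hx
  exact ⟨fun i => (hx.2 i).1.le, fun i => (hx.2 i).2.le⟩

/-! ### values of polynomials -/

lemma continuous_ev {n : ℕ} (p : Rx n) : Continuous (fun x : Fin n → ℝ => ev x p) := by
  unfold ev
  have h1 : Continuous (fun y : Fin n → ℂ => eval y p) := MvPolynomial.continuous_eval p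
  have h2 : Continuous (fun x : Fin n → ℝ => fun i => (x i : ℂ)) := by fun_prop
  exact h1.comp h2

lemma bdd_ev {n : ℕ} (p : Rx n) : ∃ B : ℝ, 0 < B ∧ ∀ x ∈ Usim n, ‖ev x p‖ ≤ B := by
  have hc : IsCompact (Set.Icc (0 : Fin n → ℝ) 1) := isCompact_Icc
  obtain ⟨B, hB⟩ := hc.exists_bound_of_continuousOn (continuous_ev p).continuousOn
  refine ⟨max B 1, lt_of_lt_of_le one_pos (le_max_right _ _), fun x hx => ?_⟩
  exact (hB x ⟨fun i => (hx.2 i).1.le, fun i => (hx.2 i).2.le⟩).trans (le_max_left _ _)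

lemma ev_mul {n : ℕ} (x : Fin n → ℝ) (p q : Rx n) : ev x (p * q) = ev x p * ev x q := by
  unfold ev; rw [map_mul]

lemma ev_add {n : ℕ} (x : Fin n → ℝ) (p q : Rx n) : ev x (p + q) = ev x p + ev x q := by
  unfold ev; rw [map_add]

lemma ev_sum {n : ℕ} {ι : Type} (s : Finset ι) (x : Fin n → ℝ) (p : ι → Rx n) :
    ev x (∑ i ∈ s, p i) = ∑ i ∈ s, ev x (p i) := by
  unfold ev; rw [map_sum]

lemma ev_smul {n : ℕ} (x : Fin n → ℝ) (c : ℂ) (p : Rx n) : ev x (c • p) = c * ev x p := by
  unfold ev; rw [MvPolynomial.smul_eval]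

/-! ### the substitution `x_i ↦ l x_i` -/

/-- the substitution `x_i ↦ l x_i` -/
noncomputable def Sl (n : ℕ) (l : ℂ) : Rx n →ₐ[ℂ] Rx n :=
  aeval (fun i : Fin n => (C l * X i : Rx n))

lemma qq_apply (n : ℕ) (w l : ℂ) (g : Rc n) : qq n w l g = Sl n l (sh n w (dh n g)) := rfl

lemma Sl_pderiv (n : ℕ) (l : ℂ) (i : Fin n) (p : Rx n) :
    C l * Sl n l (pderiv i p) = pderiv i (Sl n l p) := by
  induction p using MvPolynomial.induction_on with
  | C a =>
    have h1 : Sl n l (C a) = C a := by
      unfold Sl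
      rw [aeval_C]; rfl
    rw [h1, pderiv_C, map_zero, mul_zero]
  | add p q hp hq => rw [map_add, map_add, mul_add, hp, hq, map_add, map_add]
  | mul_X p j hp =>
    rw [pderiv_mul, map_add, map_mul, map_mul, map_mul, pderiv_mul, mul_add, ← mul_assoc, hp]
    have h1 : Sl n l (X j) = C l * X j := by
      unfold Sl
      rw [aeval_X]
    rw [h1, pderiv_C_mul, pderiv_X]
    by_cases hij : j = i
    · subst hij
      rw [Pi.single_eq_same, map_one]
      ring
    · rw [Pi.single_eq_of_ne hij, map_zero]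
      ring

lemma Sl_Dl (n : ℕ) (l : ℂ) : ∃ m : ℕ, Sl n l (Dl n) = C (l ^ m) * Dl n := by
  refine ⟨∑ i : Fin n, (Finset.Ioi i).card, ?_⟩
  unfold Dl
  rw [map_prod]
  have h : ∀ i : Fin n, Sl n l (∏ j ∈ Finset.Ioi i, (X j - X i)) =
      C l ^ (Finset.Ioi i).card * ∏ j ∈ Finset.Ioi i, (X j - X i) := by
    intro i
    rw [map_prod, ← Finset.prod_const, ← Finset.prod_mul_distrib]
    apply Finset.prod_congr rfl
    intro j _
    unfold Sl
    rw [map_sub, aeval_X, aeval_X]
    ring
  rw [Finset.prod_congr rfl fun i _ => h i, Finset.prod_mul_distrib, Finset.prod_pow_eq_pow_sum,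
    map_pow]

/-! ### dehomogenization -/

lemma dh_last (n : ℕ) : dh n (X (Fin.last n)) = 1 := by
  unfold dh
  rw [aeval_X]
  simp

lemma dh_castSucc (n : ℕ) (j : Fin n) : dh n (X j.castSucc) = X j := by
  unfold dh
  rw [aeval_X]
  simp

lemma dh_pderiv (n : ℕ) (j : Fin n) (g : Rc n) :
    dh n (pderiv j.castSucc g) = pderiv j (dh n g) := by
  induction g using MvPolynomial.induction_on with
  | C a =>
    have h1 : dh n (C a) = C a := by
      unfold dh
      rw [aeval_C]; rfl
    rw [h1, pderiv_C, map_zero, pderiv_C]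
  | add p q hp hq => rw [map_add, map_add, hp, hq, map_add, map_add]
  | mul_X p i hp =>
    rw [pderiv_mul, map_add, map_mul, map_mul, map_mul, pderiv_mul, hp]
    congr 2
    refine Fin.lastCases ?_ (fun i => ?_) i
    · rw [dh_last, pderiv_X, Pi.single_eq_of_ne (Fin.castSucc_lt_last j).ne', map_zero,
        Derivation.map_one_eq_zero]
    · rw [dh_castSucc, pderiv_X, pderiv_X]
      by_cases hij : i = j
      · subst hij
        rw [Pi.single_eq_same, Pi.single_eq_same, map_one]
      · rw [Pi.single_eq_of_ne (fun h => hij (Fin.castSucc_injective n h)),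
          Pi.single_eq_of_ne hij, map_zero]

/-- the chain rule for `qq` -/
lemma chain (n : ℕ) (w l : ℂ) (hl : l ≠ 0) (j : Fin n) : ∃ A : Fin n → Rx n,
    (∀ g : Rc n, Dl n * qq n w l (pderiv j.castSucc g) = ∑ i, A i * pderiv i (qq n w l g)) ∧
    ∑ i, pderiv i (A i) = 0 := by
  obtain ⟨A, hA1, hA2⟩ := t_Mat n w
  obtain ⟨m, hm⟩ := Sl_Dl n l
  have hc : (C ((l ^ (m + 1))⁻¹) : Rx n) * (C l * C (l ^ m)) = 1 := by
    rw [← C_mul, ← C_mul, ← pow_succ', inv_mul_cancel₀ (pow_ne_zero _ hl), C_1]
  refine ⟨fun i => C ((l ^ (m + 1))⁻¹) * Sl n l (A j i), fun g => ?_, ?_⟩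
  · have h1 := congrArg (Sl n l) (hA1 j (dh n g))
    rw [map_mul, map_sum, hm] at h1
    have h2 := congrArg (fun t => C ((l ^ (m + 1))⁻¹) * (C l * t)) h1
    rw [qq_apply, dh_pderiv]
    calc Dl n * Sl n l (sh n w (pderiv j (dh n g)))
        = C ((l ^ (m + 1))⁻¹) * (C l * C (l ^ m)) *
            (Dl n * Sl n l (sh n w (pderiv j (dh n g)))) := by rw [hc, one_mul]
      _ = C ((l ^ (m + 1))⁻¹) * (C l * (C (l ^ m) * Dl n *
            Sl n l (sh n w (pderiv j (dh n g))))) := by ring
      _ = _ := h2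
      _ = _ := by
        rw [Finset.mul_sum, Finset.mul_sum]
        apply Finset.sum_congr rfl
        intro i _
        rw [map_mul, qq_apply, ← Sl_pderiv]
        ring
  · have h1 : ∀ i : Fin n, pderiv i (C ((l ^ (m + 1))⁻¹) * Sl n l (A j i)) =
        C ((l ^ (m + 1))⁻¹) * (C l * Sl n l (pderiv i (A j i))) := by
      intro i
      rw [pderiv_C_mul, Sl_pderiv]
    rw [Finset.sum_congr rfl fun i _ => h1 i, ← Finset.mul_sum, ← Finset.mul_sum, ← map_sum,
      hA2 j, map_zero, mul_zero, mul_zero]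

theorem t_SLF (hIbp : StmIbp) (hDiff : StmDiff) : StmSlf := by
  intro n w l f L C₀ hl hL hexp him hfr
  have hUo := isOpen_Usim n
  have hUb := isBounded_Usim n
  obtain ⟨Bf, hBf0, hBf⟩ := bdd_ev (qq n w l f)
  have hre : ∀ x ∈ Usim n, (L x).re ≤ Real.log Bf := by
    intro x hx
    have h1 := hBf x hx
    rw [← hexp x hx, Complex.norm_exp] at h1
    rw [Real.le_log_iff_exp_le hBf0]
    exact h1
  -- integrability and holomorphy
  have hgen : ∀ q : Rx n,
      (∀ s : ℂ, 0 < s.re →
        MeasureTheory.IntegrableOn (fun x => Complex.exp (s * L x) * ev x q) (Usim n)) ∧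
      DifferentiableOn ℂ (fun s : ℂ => ∫ x in Usim n, Complex.exp (s * L x) * ev x q)
        {s | 0 < s.re} := by
    intro q
    obtain ⟨B, hB0, hB⟩ := bdd_ev q
    apply hDiff n (Usim n) L (fun x => ev x q) 0 (max (max C₀ (Real.log Bf)) B) hUo hUb hL
      (continuous_ev q).continuousOn
    · intro x hx
      exact (hre x hx).trans ((le_max_right _ _).trans (le_max_left _ _))
    · intro x hx
      exact (him x hx).trans ((le_max_left _ _).trans (le_max_left _ _))
    · intro x hx
      rw [zero_mul, Real.exp_zero, mul_one]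
      exact (hB x hx).trans (le_max_right _ _)
  -- the functionals
  let Tp : (s : ℂ) → 0 < s.re → (Rc n →ₗ[ℂ] ℂ) := fun s hs =>
    { toFun := fun g => ∫ x in Usim n, Complex.exp (s * L x) * ev x (Dl n * qq n w l g)
      map_add' := by
        intro g h
        rw [← MeasureTheory.integral_add ((hgen _).1 s hs) ((hgen _).1 s hs)]
        apply MeasureTheory.integral_congr_ae
        refine Eventually.of_forall fun x => ?_
        simp only [map_add, mul_add, ev_add]
      map_smul' := by
        intro c g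
        rw [RingHom.id_apply, smul_eq_mul, ← MeasureTheory.integral_const_mul]
        apply MeasureTheory.integral_congr_ae
        refine Eventually.of_forall fun x => ?_
        simp only [map_smul, mul_smul_comm, ev_smul]
        ring }
  classical
  let T : ℂ → (Rc n →ₗ[ℂ] ℂ) := fun s => if hs : 0 < s.re then Tp s hs else 0
  have hT : ∀ (s : ℂ) (g : Rc n), 0 < s.re →
      T s g = ∫ x in Usim n, Complex.exp (s * L x) * ev x (Dl n * qq n w l g) := by
    intro s g hs
    show (if hs : 0 < s.re then Tp s hs else 0) g = _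
    rw [dif_pos hs]
    rfl
  refine ⟨T, ⟨?_, ?_, ?_⟩, ?_, hT⟩
  · intro s hs g
    have hs1 : 0 < ((s : ℝ) : ℂ).re := by simpa using hs
    have hs2 : 0 < (((s + 1 : ℝ)) : ℂ).re := by
      rw [Complex.ofReal_re]; linarith
    show T (s : ℂ) (f * g) = T ((s + 1 : ℝ) : ℂ) g
    rw [hT _ _ hs1, hT _ _ hs2]
    apply MeasureTheory.setIntegral_congr_fun hUo.measurableSet
    intro x hx
    show Complex.exp ((s : ℂ) * L x) * ev x (Dl n * qq n w l (f * g)) =
      Complex.exp (((s + 1 : ℝ) : ℂ) * L x) * ev x (Dl n * qq n w l g)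
    have h1 : (((s + 1 : ℝ) : ℂ) * L x) = (s : ℂ) * L x + L x := by
      push_cast; ring
    rw [h1, Complex.exp_add, hexp x hx, map_mul, ev_mul, ev_mul, ev_mul]
    ring
  · intro s hs g
    have hs1 : 0 < ((s : ℝ) : ℂ).re := by simpa using hs
    show T (s : ℂ) (X (Fin.last n) * g) = T (s : ℂ) g
    rw [hT _ _ hs1, hT _ _ hs1]
    have h1 : qq n w l (X (Fin.last n) * g) = qq n w l g := by
      rw [map_mul, qq_apply, dh_last, map_one, map_one, one_mul]
    rw [h1]
  · intro s hs j g
    have hs1 : 0 < ((s : ℝ) : ℂ).re := by simpa using hs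
    show T (s : ℂ) (f * pderiv j.castSucc g + C ((s : ℂ) + 1) * pderiv j.castSucc f * g) = 0
    rw [hT _ _ hs1]
    obtain ⟨A, hA1, hA2⟩ := chain n w l hl j
    have hqC : qq n w l (C ((s : ℂ) + 1)) = C ((s : ℂ) + 1) := by
      rw [← MvPolynomial.algebraMap_eq, AlgHom.commutes]; rfl
    have hid : Dl n * qq n w l (f * pderiv j.castSucc g +
        C ((s : ℂ) + 1) * pderiv j.castSucc f * g) =
        ∑ i, (qq n w l f * pderiv i (A i * qq n w l g) +
          C ((s : ℂ) + 1) * pderiv i (qq n w l f) * (A i * qq n w l g)) := by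
      have h1 : Dl n * qq n w l (f * pderiv j.castSucc g +
          C ((s : ℂ) + 1) * pderiv j.castSucc f * g) =
          qq n w l f * (Dl n * qq n w l (pderiv j.castSucc g)) +
          C ((s : ℂ) + 1) * (Dl n * qq n w l (pderiv j.castSucc f)) * qq n w l g := by
        rw [map_add, map_mul, map_mul, map_mul, hqC]
        ring
      rw [h1, hA1, hA1]
      have h2 : ∑ i, (qq n w l f * pderiv i (A i * qq n w l g) +
          C ((s : ℂ) + 1) * pderiv i (qq n w l f) * (A i * qq n w l g)) =
          ∑ i, (qq n w l f * (A i * pderiv i (qq n w l g)) +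
            C ((s : ℂ) + 1) * (A i * pderiv i (qq n w l f)) * qq n w l g) +
          qq n w l f * qq n w l g * ∑ i, pderiv i (A i) := by
        rw [Finset.mul_sum, ← Finset.sum_add_distrib]
        apply Finset.sum_congr rfl
        intro i _
        rw [pderiv_mul]
        ring
      rw [h2, hA2, mul_zero, add_zero, Finset.sum_add_distrib, Finset.mul_sum, Finset.mul_sum,
        Finset.sum_mul]
    rw [hid]
    have h3 : ∀ x : Fin n → ℝ, Complex.exp ((s : ℂ) * L x) *
        ev x (∑ i, (qq n w l f * pderiv i (A i * qq n w l g) +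
          C ((s : ℂ) + 1) * pderiv i (qq n w l f) * (A i * qq n w l g))) =
        ∑ i, Complex.exp ((s : ℂ) * L x) *
          ev x (qq n w l f * pderiv i (A i * qq n w l g) +
          C ((s : ℂ) + 1) * pderiv i (qq n w l f) * (A i * qq n w l g)) := by
      intro x
      rw [ev_sum, Finset.mul_sum]
    simp only [h3]
    rw [MeasureTheory.integral_finsetSum _ fun i _ => (hgen _).1 (s : ℂ) hs1]
    apply Finset.sum_eq_zero
    intro i _
    exact hIbp n (Usim n) L (qq n w l f) hUo hUb hL hexp hfr s i (A i * qq n w l g) hs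
  · intro g
    have h1 := (hgen (Dl n * qq n w l g)).2
    refine h1.congr ?_
    intro s hs
    exact hT s g hs

end Pool.Agent.K3h16.BFSLF
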