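import Pool.Agent.K3h34.BF.Stm

/-!
# Brick VERT of helper34: analytic continuation to the vertex
-/

set_option autoImplicit false

namespace Pool.Agent.K3h16.BFVERT

open MvPolynomial
open Pool.Agent.K3h34.BF
open Pool.Agent.H628R4.TP (weylS IsBFunction)
open Filter Topology

/-- a linear map on `g` is the sum over the homogeneous components -/
lemma map_eq_sum_hc {n : ℕ} (L : Rc n →ₗ[ℂ] ℂ) (g : Rc n) :
    L g = ∑ d ∈ Finset.range (g.totalDegree + 1), L (homogeneousComponent d g) := by
  rw [← map_sum, sum_homogeneousComponent]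

theorem t_VERT (hFE : StmFE) (hGam : StmGam) : StmVert := by
  intro n N f c hN hf hf0 hb T hSl hTd k v Φ σ hv hσ hΦd hΦ hΦ0
  obtain ⟨Λ, hTw, hΛ⟩ := hGam n N f (fun s : ℝ => T (s : ℂ)) hN hf hSl
  set w : Fin (n + 1) → Rc n := fun j => if j = Fin.last n then 1 else 0 with hw
  obtain ⟨M, K, B, hB⟩ := hFE (Fin (n + 1)) f w c hf0 hb (k + n + 2)
  have hB' := hB Λ hTw
  have hNpos : (0 : ℝ) < N := by exact_mod_cast hN
  have hN1 : (1 : ℝ) ≤ N := by exact_mod_cast hN
  have hNC : (N : ℂ) ≠ 0 := by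
    have : N ≠ 0 := by omega
    exact_mod_cast this
  -- the functions
  let Lf : ℂ → ℂ := fun s => (∏ i ∈ Finset.range (k + n + 2), c.eval (s + i)) * Φ s
  let Rf : ℂ → ℂ := fun s => (Complex.Gamma ((N : ℂ) * s + (k * N : ℕ) + n + 1))⁻¹ *
    ∑ i ∈ Finset.range K, s ^ i * ∑ d ∈ Finset.range ((B i v).totalDegree + 1),
      (Complex.Gamma ((N : ℂ) * (s + (k + n + 2 : ℕ)) + d + n + 1) *
        T (s + (k + n + 2 : ℕ)) (homogeneousComponent d (B i v)))
  let H : Set ℂ := {s | max σ (-((k + n + 2 : ℕ) : ℝ)) < s.re}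
  have hHo : IsOpen H := isOpen_lt continuous_const Complex.continuous_re
  have hHc : Convex ℝ H := convex_halfSpace_re_gt _
  have hLd : DifferentiableOn ℂ Lf H := by
    intro s hs
    have hs' : σ < s.re := lt_of_le_of_lt (le_max_left _ _) hs
    have h1 : DifferentiableAt ℂ Φ s :=
      (hΦd s hs').differentiableAt ((isOpen_lt continuous_const Complex.continuous_re).mem_nhds hs')
    have h2 : DifferentiableAt ℂ
        (fun s : ℂ => ∏ i ∈ Finset.range (k + n + 2), c.eval (s + i)) s := by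
      apply DifferentiableAt.fun_finsetProd
      intro i _
      have := (Polynomial.differentiable c).comp
        ((differentiable_id).add_const (i : ℂ) : Differentiable ℂ (fun s : ℂ => id s + (i : ℂ)))
      exact this s
    exact (h2.mul h1).differentiableWithinAt
  have hRd : DifferentiableOn ℂ Rf H := by
    intro s hs
    have hs' : -((k + n + 2 : ℕ) : ℝ) < s.re := lt_of_le_of_lt (le_max_right _ _) hs
    have hpos : 0 < (s + ((k + n + 2 : ℕ) : ℂ)).re := by
      simp only [Complex.add_re, Complex.natCast_re]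
      linarith
    have h1 : DifferentiableAt ℂ
        (fun s : ℂ => (Complex.Gamma ((N : ℂ) * s + (k * N : ℕ) + n + 1))⁻¹) s := by
      have h := Complex.differentiable_one_div_Gamma.comp
        ((((differentiable_id (𝕜 := ℂ) (E := ℂ)).const_mul (N : ℂ)).add_const ((k * N : ℕ) : ℂ)).add_const
          (n : ℂ) |>.add_const (1 : ℂ))
      exact h s
    have h2 : DifferentiableAt ℂ (fun s : ℂ =>
        ∑ i ∈ Finset.range K, s ^ i * ∑ d ∈ Finset.range ((B i v).totalDegree + 1),
          (Complex.Gamma ((N : ℂ) * (s + (k + n + 2 : ℕ)) + d + n + 1) *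
            T (s + (k + n + 2 : ℕ)) (homogeneousComponent d (B i v)))) s := by
      apply DifferentiableAt.fun_sum
      intro i _
      apply DifferentiableAt.mul (differentiableAt_id.pow i)
      apply DifferentiableAt.fun_sum
      intro d _
      apply DifferentiableAt.mul
      · have hz : DifferentiableAt ℂ Complex.Gamma ((N : ℂ) * (s + (k + n + 2 : ℕ)) + d + n + 1) := by
          apply Complex.differentiableAt_Gamma
          intro m hm
          have hre := congrArg Complex.re hm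
          have : ((N : ℂ) * (s + (k + n + 2 : ℕ)) + d + n + 1).re =
              (N : ℝ) * (s + ((k + n + 2 : ℕ) : ℂ)).re + d + n + 1 := by
            simp [Complex.add_re, Complex.mul_re]
          rw [this] at hre
          have h3 : 0 < (N : ℝ) * (s + ((k + n + 2 : ℕ) : ℂ)).re := mul_pos hNpos hpos
          have h4 : (0 : ℝ) ≤ d := Nat.cast_nonneg _
          have h5 : (0 : ℝ) ≤ n := Nat.cast_nonneg _
          have h6 : (0 : ℝ) ≤ m := Nat.cast_nonneg _
          simp only [Complex.neg_re, Complex.natCast_re] at hre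
          linarith
        have hin : DifferentiableAt ℂ
            (fun s : ℂ => (N : ℂ) * (s + ((k + n + 2 : ℕ) : ℂ)) + d + n + 1) s := by
          fun_prop
        exact DifferentiableAt.comp s hz hin
      · have hz : DifferentiableAt ℂ (fun z => T z (homogeneousComponent d (B i v)))
            (s + ((k + n + 2 : ℕ) : ℂ)) :=
          (hTd _ _ hpos).differentiableAt
            ((isOpen_lt continuous_const Complex.continuous_re).mem_nhds hpos)
        have hin : DifferentiableAt ℂ (fun s : ℂ => s + ((k + n + 2 : ℕ) : ℂ)) s := by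
          fun_prop
        exact DifferentiableAt.comp s hz hin
    exact (h1.mul h2).differentiableWithinAt
  -- equality for real s > M
  have hreal : ∀ s : ℝ, (M : ℝ) < s → Lf (s : ℂ) = Rf (s : ℂ) := by
    intro s hs
    have hs0 : 0 < s := lt_of_le_of_lt (Nat.cast_nonneg M) hs
    have h1 := hB' s hs v
    have h2 := hΛ s (k * N) v hs0 hv
    have hG : Complex.Gamma ((N : ℂ) * s + (k * N : ℕ) + n + 1) ≠ 0 := by
      apply Complex.Gamma_ne_zero_of_re_pos
      have : ((N : ℂ) * (s : ℂ) + (k * N : ℕ) + n + 1).re = (N : ℝ) * s + (k * N : ℕ) + n + 1 := by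
        simp [Complex.add_re, Complex.mul_re]
      rw [this]
      have h3 : 0 < (N : ℝ) * s := mul_pos hNpos hs0
      have h4 : (0 : ℝ) ≤ ((k * N : ℕ) : ℝ) := Nat.cast_nonneg _
      have h5 : (0 : ℝ) ≤ n := Nat.cast_nonneg _
      linarith
    have h3 : ∀ i, Λ (s + (k + n + 2 : ℕ)) (B i v) =
        ∑ d ∈ Finset.range ((B i v).totalDegree + 1),
          (Complex.Gamma ((N : ℂ) * ((s : ℂ) + (k + n + 2 : ℕ)) + d + n + 1) *
            T ((s : ℂ) + (k + n + 2 : ℕ)) (homogeneousComponent d (B i v))) := by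
      intro i
      rw [map_eq_sum_hc (Λ (s + (k + n + 2 : ℕ))) (B i v)]
      apply Finset.sum_congr rfl
      intro d _
      have hp : 0 < s + ((k + n + 2 : ℕ) : ℝ) := by positivity
      rw [hΛ (s + ((k + n + 2 : ℕ) : ℝ)) d _ hp (homogeneousComponent_isHomogeneous d _)]
      push_cast
      rfl
    show (∏ i ∈ Finset.range (k + n + 2), c.eval ((s : ℂ) + i)) * Φ (s : ℂ) =
      (Complex.Gamma ((N : ℂ) * s + (k * N : ℕ) + n + 1))⁻¹ *
      ∑ i ∈ Finset.range K, (s : ℂ) ^ i * ∑ d ∈ Finset.range ((B i v).totalDegree + 1),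
        (Complex.Gamma ((N : ℂ) * ((s : ℂ) + (k + n + 2 : ℕ)) + d + n + 1) *
          T ((s : ℂ) + (k + n + 2 : ℕ)) (homogeneousComponent d (B i v)))
    have h4 : (∑ i ∈ Finset.range K, (s : ℂ) ^ i *
        ∑ d ∈ Finset.range ((B i v).totalDegree + 1),
        (Complex.Gamma ((N : ℂ) * ((s : ℂ) + (k + n + 2 : ℕ)) + d + n + 1) *
          T ((s : ℂ) + (k + n + 2 : ℕ)) (homogeneousComponent d (B i v)))) =
        (∏ i ∈ Finset.range (k + n + 2), c.eval ((s : ℂ) + i)) * Λ s v := by
      rw [h1]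
      apply Finset.sum_congr rfl
      intro i _
      rw [h3 i]
    rw [h4, h2, hΦ s hs0]
    revert hG
    generalize Complex.Gamma ((N : ℂ) * s + (k * N : ℕ) + n + 1) = G
    intro hG
    field_simp
  -- identity theorem
  have hfreq : ∃ᶠ z in 𝓝[≠] ((M : ℂ) + 1), Lf z = Rf z := by
    have hseq : Tendsto (fun m : ℕ => ((M : ℂ) + 1) + (((m : ℝ) + 1)⁻¹ : ℝ)) atTop
        (𝓝[≠] ((M : ℂ) + 1)) := by
      rw [tendsto_nhdsWithin_iff]
      constructor
      · have h1 : Tendsto (fun m : ℕ => (((m : ℝ) + 1)⁻¹ : ℝ)) atTop (𝓝 0) := by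
          have := tendsto_one_div_add_atTop_nhds_zero_nat (𝕜 := ℝ)
          simpa [one_div] using this
        have h2 : Tendsto (fun m : ℕ => ((((m : ℝ) + 1)⁻¹ : ℝ) : ℂ)) atTop (𝓝 ((0 : ℝ) : ℂ)) :=
          (Complex.continuous_ofReal.tendsto 0).comp h1
        have h3 := h2.const_add ((M : ℂ) + 1)
        simpa using h3
      · refine Eventually.of_forall fun m => ?_
        simp only [Set.mem_compl_iff, Set.mem_singleton_iff]
        intro h
        have h1 : ((((m : ℝ) + 1)⁻¹ : ℝ) : ℂ) = 0 := by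
          have := sub_eq_zero.mpr h
          simpa using this
        have h2 : ((m : ℝ) + 1)⁻¹ = 0 := by exact_mod_cast h1
        have h3 : (0 : ℝ) < ((m : ℝ) + 1)⁻¹ := by positivity
        linarith
    apply hseq.frequently
    apply Filter.Frequently.of_forall
    intro m
    have h1 : (M : ℝ) < (M : ℝ) + 1 + ((m : ℝ) + 1)⁻¹ := by
      have h3 : (0 : ℝ) < ((m : ℝ) + 1)⁻¹ := by positivity
      linarith
    have := hreal _ h1
    push_cast at this ⊢
    exact this
  have hLa : AnalyticOnNhd ℂ Lf H := hLd.analyticOnNhd hHo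
  have hRa : AnalyticOnNhd ℂ Rf H := hRd.analyticOnNhd hHo
  have hsn : -((n : ℝ) + 1) / N - k < 0 := by
    have h1 : 0 < ((n : ℝ) + 1) / N := by positivity
    have h2 : (0 : ℝ) ≤ k := Nat.cast_nonneg _
    rw [neg_div]
    linarith
  have hM0 : ((M : ℂ) + 1) ∈ H := by
    show max σ (-((k + n + 2 : ℕ) : ℝ)) < ((M : ℂ) + 1).re
    have h1 : ((M : ℂ) + 1).re = (M : ℝ) + 1 := by simp
    rw [h1]
    have h2 : (0 : ℝ) ≤ M := Nat.cast_nonneg _
    have h3 : (0 : ℝ) ≤ ((k + n + 2 : ℕ) : ℝ) := Nat.cast_nonneg _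
    apply max_lt
    · linarith
    · linarith
  have hEq := hLa.eqOn_of_preconnected_of_frequently_eq hRa hHc.isPreconnected hM0 hfreq
  -- the vertex
  have hs_re : (-((n : ℂ) + 1) / N - k).re = -((n : ℝ) + 1) / N - k := by
    have : (-((n : ℂ) + 1) / N - k) = ((-((n : ℝ) + 1) / N - k : ℝ) : ℂ) := by
      push_cast; ring
    rw [this, Complex.ofReal_re]
  have hsH : (-((n : ℂ) + 1) / N - k) ∈ H := by
    show max σ (-((k + n + 2 : ℕ) : ℝ)) < (-((n : ℂ) + 1) / N - k).re
    rw [hs_re]
    apply max_lt hσ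
    have h1 : ((n : ℝ) + 1) / N ≤ n + 1 := by
      rw [div_le_iff₀ hNpos]
      have : (0 : ℝ) ≤ (n : ℝ) + 1 := by positivity
      nlinarith
    push_cast
    rw [neg_div]
    linarith
  have hval := hEq hsH
  have hR0 : Rf (-((n : ℂ) + 1) / N - k) = 0 := by
    have h1 : (N : ℂ) * (-((n : ℂ) + 1) / N - k) + (k * N : ℕ) + n + 1 = 0 := by
      push_cast
      field_simp
      ring
    show (Complex.Gamma ((N : ℂ) * (-((n : ℂ) + 1) / N - k) + (k * N : ℕ) + n + 1))⁻¹ * _ = 0
    rw [h1, Complex.Gamma_zero]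
    simp
  rw [hR0] at hval
  have hprod : ∏ i ∈ Finset.range (k + n + 2),
      c.eval ((-((n : ℂ) + 1) / N - k) + i) = 0 := by
    rcases mul_eq_zero.mp hval with h | h
    · exact h
    · exact absurd h hΦ0
  obtain ⟨i, _, hi⟩ := Finset.prod_eq_zero_iff.mp hprod
  refine ⟨(i : ℤ) - (k : ℤ), ?_⟩
  have : (-((n : ℂ) + 1) / N + (((i : ℤ) - (k : ℤ) : ℤ) : ℂ)) = (-((n : ℂ) + 1) / N - k) + i := by
    push_cast
    ring
  rw [this]
  exact hi

end Pool.Agent.K3h16.BFVERT
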